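import Mathlib
import Pool.Agent.Helper66.WSC.Defs
import Pool.Agent.Helper66.WSC.Main

set_option autoImplicit false

open Pool.Agent.Helper66.WSC

namespace Pool.Agent.Results.MP_32446a_an.CompactWeaklySupercyclic

/-- Over `𝕜 = ℝ` and over `𝕜 = ℂ` there are a Banach space `B` and a bounded operator `T` on `B`
that satisfies (H), is itself compact, is weakly supercyclic, and is not supercyclic. -/
theorem result (𝕜 : Type) [RCLike 𝕜] :
    ∃ (B : Type) (_ : NormedAddCommGroup B) (_ : NormedSpace 𝕜 B) (_ : CompleteSpace B)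
      (T : B →L[𝕜] B), HypothesisH T ∧ IsCompactOperator T ∧ IsWeaklySupercyclic T ∧
        ¬ IsSupercyclic T :=
  main 𝕜

end Pool.Agent.Results.MP_32446a_an.CompactWeaklySupercyclic
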